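import Pool.Agent.H31.MP.Basic
import Pool.Agent.H21.PI.Moments

/-! Row MO of the board `mtp_modules` (problem MP_76b9e7_nt): the moments of the number of rough
integers in the windows. -/

set_option autoImplicit false

open Finset Real ArithmeticFunction Filter
open scoped Nat

namespace Pool.Agent.H7.MTP

open Pool.Agent.H31.MP
open Pool.Agent.H30.BV (NX)
open Pool.Agent.H21.PI Pool.Agent.H18.T2

/-- no prime factor up to `w` -/
def Rg (w : ℝ) (m : ℕ) : Prop := ∀ p : ℕ, p.Prime → (p : ℝ) ≤ w → ¬ p ∣ m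

theorem Rg.coprime {w : ℝ} {m y : ℕ} (h : Rg w m) (hy : (y : ℝ) ≤ w) : m.Coprime (primorial y) := by
  rw [Nat.coprime_comm]
  unfold primorial
  apply Nat.Coprime.prod_left
  intro p hp
  rw [mem_filter, mem_range] at hp
  rw [hp.2.coprime_iff_not_dvd]
  refine h p hp.2 (le_trans ?_ hy)
  exact_mod_cast (by omega : p ≤ y)

open Classical in
/-- the sieve bound for tuples of rough numbers -/
theorem rough_bound {C : ℝ} (hC0 : 0 < C) (w : ℝ) (y h b a N z r : ℕ) (U : Finset ℕ)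
    (hy : h ≤ y * y) (hy2 : 2 ≤ y) (hr : r * r ≤ y) (hr1 : 1 ≤ r) (hz : 1 ≤ z) (hU : U ⊆ range h)
    (hUr : U.card = r) (hza : ((z : ℝ)) ^ r ≤ w)
    (hC : ∏ p ∈ Nat.primesLE y, (1 + 1 / (p : ℝ)) ≤ C * Real.log y) :
    ((((Finset.Ico a (a + N)).filter
      (fun t => ∀ u ∈ U, Rg w (primorial y * t + (b + u)))).card : ℕ) : ℝ) ≤
      (6 * C * Real.log y) ^ r * N / (Real.log (z + 1)) ^ r + (z : ℝ) ^ (6 * r) := by
  set V : Finset ℕ := U.image (fun u => b + u) with hV
  have hVcard : V.card = r := by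
    rw [hV, card_image_of_injective _ (add_right_injective b), hUr]
  have hVU : ∀ v ∈ V, b ≤ v ∧ v < b + h := by
    intro v hv
    rw [hV, mem_image] at hv
    obtain ⟨u, hu, rfl⟩ := hv
    have := mem_range.1 (hU hu)
    omega
  have h1 := sieve_bound (primorial y) V a N z (by omega) hz (BB y V) (by
    intro p hp
    unfold BB at hp
    rw [mem_union, mem_biUnion] at hp
    rcases hp with hp | ⟨u, _, hp⟩
    · exact (Nat.mem_primesLE.1 hp).2.pos
    · rw [mem_biUnion] at hp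
      obtain ⟨v, _, hp⟩ := hp
      rw [mem_filter] at hp
      exact (Nat.prime_of_mem_primeFactors hp.1).pos) (by
    intro p hp _ hpB
    unfold BB at hpB
    rw [mem_union, mem_biUnion] at hpB
    push Not at hpB
    have hpy : y < p := by
      by_contra h
      exact hpB.1 (Nat.mem_primesLE.2 ⟨by omega, hp⟩)
    refine ⟨fun h => ?_, ?_, fun u hu v hv huv hd => ?_⟩
    · have := hp.dvd_primorial_iff.1 h
      omega
    · rw [hVcard]
      nlinarith
    · apply hpB.2 u hu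
      rw [mem_biUnion]
      refine ⟨v, mem_filter.2 ⟨hv, huv⟩, mem_filter.2 ⟨?_, hpy⟩⟩
      exact Nat.mem_primeFactors.2 ⟨hp, hd, by omega⟩)
  rw [hVcard] at h1
  have h2 : ((((Finset.Ico a (a + N)).filter
      (fun t => ∀ u ∈ U, Rg w (primorial y * t + (b + u)))).card : ℕ) : ℝ) ≤
      (((Finset.Ico a (a + N)).filter
      (fun n => (∏ p ∈ SPK (primorial y) V (z ^ r), p).Coprime (valL (primorial y) V n))).card : ℝ) := by
    norm_cast
    apply card_le_card
    intro t ht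
    rw [mem_filter, mem_Ico] at ht
    rw [mem_filter, mem_Ico]
    refine ⟨ht.1, ?_⟩
    apply Nat.Coprime.prod_left
    intro p hp
    have hp' := mem_SPK.1 hp
    unfold valL
    apply Nat.Coprime.prod_right
    intro v hv
    rw [hV, mem_image] at hv
    obtain ⟨u, hu, rfl⟩ := hv
    rw [hp'.1.2.coprime_iff_not_dvd]
    refine ht.2 u hu p hp'.1.2 (le_trans ?_ hza)
    exact_mod_cast hp'.1.1
  refine h2.trans (h1.trans ?_)
  apply add_le_add_left
  have hlz : 0 < Real.log (z + 1) := by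
    apply Real.log_pos
    have : (1:ℝ) ≤ z := by exact_mod_cast hz
    linarith
  have hly : 0 < Real.log y := Real.log_pos (by exact_mod_cast hy2)
  have h3 : ∏ p ∈ BB y V, (1 + 1 / (p : ℝ)) ≤ 3 * C * Real.log y := by
    have e1 := BB_prod y h b V hy (by omega) hVU
    rw [hVcard] at e1
    have e2 : (1 + 1 / (y : ℝ)) ^ (r * r) ≤ 3 := by
      have hy0 : (0:ℝ) < y := by exact_mod_cast (by omega : 0 < y)
      calc (1 + 1 / (y : ℝ)) ^ (r * r) ≤ (Real.exp (1 / y)) ^ (r * r) := by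
            gcongr
            have := Real.add_one_le_exp (1 / (y:ℝ))
            linarith
        _ = Real.exp ((r * r : ℕ) * (1 / y)) := by rw [← Real.exp_nat_mul]
        _ ≤ Real.exp 1 := by
            apply Real.exp_le_exp.2
            rw [mul_one_div, div_le_one hy0]
            exact_mod_cast hr
        _ ≤ 3 := by
            have := Real.exp_one_lt_d9
            linarith
    calc ∏ p ∈ BB y V, (1 + 1 / (p : ℝ)) ≤ _ := e1
      _ ≤ (C * Real.log y) * 3 := by gcongr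
      _ = _ := by ring
  have h4 : 0 ≤ ∏ p ∈ BB y V, (1 + 1 / (p : ℝ)) := zero_le_one.trans (prod_one_le _)
  have h5 : 2 * ∏ p ∈ BB y V, (1 + 1 / (p : ℝ)) ≤ 6 * C * Real.log y := by linarith
  gcongr

open Classical in
/-- the rough integers in a window -/
noncomputable def Xr (w : ℝ) (h k : ℕ) : ℕ := ((range h).filter (fun i => Rg w (k + i))).card

open Classical in
theorem choose_le_sum' (w : ℝ) (k h y r : ℕ) (hyw : (y : ℝ) ≤ w) :
    (Xr w h k).choose r ≤ ∑ U ∈ powersetCard r (Hb h y (k % primorial y)),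
      if ∀ u ∈ U, Rg w (k + u) then 1 else 0 := by
  unfold Xr
  rw [← card_powersetCard, ← card_filter]
  apply card_le_card
  intro U hU
  rw [mem_powersetCard] at hU
  rw [mem_filter, mem_powersetCard]
  refine ⟨⟨fun i hi => ?_, hU.2⟩, fun u hu => (mem_filter.1 (hU.1 hu)).2⟩
  have h2 := mem_filter.1 (hU.1 hi)
  unfold Hb
  rw [mem_filter]
  refine ⟨h2.1, ?_⟩
  rw [coprime_mod]
  exact h2.2.coprime hyw

open Classical in
/-- splitting into residue classes -/
theorem split_classes' (w : ℝ) (n h y r : ℕ) (hyw : (y : ℝ) ≤ w) :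
    ∑ k ∈ Icc 1 n, (Xr w h k).choose r ≤
      ∑ b ∈ range (primorial y), ∑ U ∈ powersetCard r (Hb h y b),
        ((Ico 0 (0 + (n / primorial y + 1))).filter
          (fun t => ∀ u ∈ U, Rg w (primorial y * t + (b + u)))).card := by
  set P := primorial y with hP
  have hP0 : 0 < P := primorial_pos y
  calc ∑ k ∈ Icc 1 n, (Xr w h k).choose r
      ≤ ∑ k ∈ Icc 1 n, ∑ U ∈ powersetCard r (Hb h y (k % P)),
        (if ∀ u ∈ U, Rg w (k + u) then 1 else 0) :=
        sum_le_sum fun k _ => choose_le_sum' w k h y r hyw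
    _ = ∑ b ∈ range P, ∑ k ∈ (Icc 1 n).filter (fun k => k % P = b),
        ∑ U ∈ powersetCard r (Hb h y (k % P)), (if ∀ u ∈ U, Rg w (k + u) then 1 else 0) := by
        rw [sum_fiberwise_of_maps_to]
        intro k _
        exact mem_range.2 (Nat.mod_lt _ hP0)
    _ ≤ _ := by
        apply sum_le_sum
        intro b hb
        have e1 : ∑ k ∈ (Icc 1 n).filter (fun k => k % P = b),
            ∑ U ∈ powersetCard r (Hb h y (k % P)), (if ∀ u ∈ U, Rg w (k + u) then 1 else 0) =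
            ∑ U ∈ powersetCard r (Hb h y b), ∑ k ∈ (Icc 1 n).filter (fun k => k % P = b),
              (if ∀ u ∈ U, Rg w (k + u) then 1 else 0) := by
          rw [sum_comm]
          apply sum_congr rfl
          intro k hk
          rw [(mem_filter.1 hk).2]
        rw [e1]
        apply sum_le_sum
        intro U _
        rw [← card_filter]
        apply card_le_card_of_injOn (fun k => k / P)
        · intro k hk
          rw [mem_coe, mem_filter, mem_filter, mem_Icc] at hk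
          obtain ⟨⟨hk1, hk2⟩, hk3⟩ := hk
          simp only [coe_filter, mem_Ico, Set.mem_ofPred_eq]
          have e3 : k / P ≤ n / P := Nat.div_le_div_right (by omega)
          refine ⟨⟨Nat.zero_le _, by omega⟩, fun u hu => ?_⟩
          have e4 : P * (k / P) + (b + u) = k + u := by
            have := Nat.div_add_mod k P
            omega
          rw [e4]
          exact hk3 u hu
        · intro k hk k' hk' hkk
          rw [mem_coe, mem_filter, mem_filter] at hk hk'
          simp only at hkk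
          have e2 := Nat.div_add_mod k P
          have e3 := Nat.div_add_mod k' P
          rw [← hkk] at e3
          omega

/-- the basic bound -/
theorem T_bound' {C : ℝ} (hC0 : 0 < C) (w : ℝ) (n h y z z1 r : ℕ)
    (hy : h ≤ y * y) (hy2 : 2 ≤ y) (hr : r * r ≤ y) (hr1 : 1 ≤ r) (hz : 1 ≤ z)
    (hz1 : 1 ≤ z1) (hz1y : z1 ≤ y) (hza : (z : ℝ) ^ r ≤ w) (hyw : (y : ℝ) ≤ w)
    (hC : ∏ p ∈ Nat.primesLE y, (1 + 1 / (p : ℝ)) ≤ C * Real.log y) :
    ((∑ k ∈ Icc 1 n, (Xr w h k).choose r : ℕ) : ℝ) ≤ primorial y *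
        ((2 * h / Real.log (z1 + 1) + (z1 : ℝ) ^ 6) ^ r *
          ((6 * C * Real.log y) ^ r * (n / primorial y + 1) / (Real.log (z + 1)) ^ r) +
          (h : ℝ) ^ r * (z : ℝ) ^ (6 * r)) := by
  classical
  set P := primorial y with hP
  have hP0 : 0 < P := primorial_pos y
  have h3 := split_classes' w n h y r hyw
  have hlz : 0 < Real.log (z + 1) := by
    apply Real.log_pos
    have : (1:ℝ) ≤ z := by exact_mod_cast hz
    linarith
  have hlz1 : 0 < Real.log (z1 + 1) := by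
    apply Real.log_pos
    have : (1:ℝ) ≤ z1 := by exact_mod_cast hz1
    linarith
  have hly : 0 < Real.log y := Real.log_pos (by exact_mod_cast hy2)
  set M : ℝ := (6 * C * Real.log y) ^ r * (n / P + 1) / (Real.log (z + 1)) ^ r with hM
  have hM0 : 0 ≤ M := by positivity
  set W : ℝ := 2 * h / Real.log (z1 + 1) + (z1 : ℝ) ^ 6 with hW
  have hW0 : 0 ≤ W := by positivity
  have h4 : ∀ b, ∀ U ∈ powersetCard r (Hb h y b),
      ((((Ico 0 (0 + (n / P + 1))).filter
          (fun t => ∀ u ∈ U, Rg w (P * t + (b + u)))).card : ℕ) : ℝ) ≤ M + (z:ℝ) ^ (6 * r) := by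
    intro b U hU
    rw [mem_powersetCard] at hU
    have h5 := rough_bound hC0 w y h b 0 (n / P + 1) z r U hy hy2 hr hr1 hz
      (hU.1.trans (filter_subset _ _)) hU.2 hza hC
    refine h5.trans ?_
    rw [hM]
    have h6 : ((n / P + 1 : ℕ) : ℝ) ≤ (n : ℝ) / P + 1 := by
      push_cast
      have : ((n / P : ℕ) : ℝ) ≤ (n : ℝ) / P := Nat.cast_div_le
      linarith
    gcongr
  have h5 : ∀ b, ((((Hb h y b).card).choose r : ℕ) : ℝ) ≤ W ^ r := by
    intro b
    have h6 := surv b h y z1 hz1 hz1y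
    have h7 : ((((Hb h y b).card).choose r : ℕ) : ℝ) ≤ (((Hb h y b).card : ℕ) : ℝ) ^ r := by
      exact_mod_cast Nat.choose_le_pow _ _
    refine h7.trans ?_
    unfold Hb
    gcongr
  have h5' : ∀ b, ((((Hb h y b).card).choose r : ℕ) : ℝ) ≤ (h : ℝ) ^ r := by
    intro b
    have h6 : (Hb h y b).card ≤ h := by
      unfold Hb
      exact (card_filter_le _ _).trans (by rw [card_range])
    exact_mod_cast (Nat.choose_le_pow _ _).trans (Nat.pow_le_pow_left h6 r)
  have h7 : ((∑ k ∈ Icc 1 n, (Xr w h k).choose r : ℕ) : ℝ) ≤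
      ((∑ b ∈ range P, ∑ U ∈ powersetCard r (Hb h y b),
        ((Ico 0 (0 + (n / P + 1))).filter
          (fun t => ∀ u ∈ U, Rg w (P * t + (b + u)))).card : ℕ) : ℝ) := by
    exact_mod_cast h3
  refine h7.trans ?_
  push_cast
  calc ∑ b ∈ range P, ∑ U ∈ powersetCard r (Hb h y b),
      ((((Ico 0 (0 + (n / P + 1))).filter
        (fun t => ∀ u ∈ U, Rg w (P * t + (b + u)))).card : ℕ) : ℝ)
      ≤ ∑ b ∈ range P, (W ^ r * M + (h : ℝ) ^ r * (z:ℝ) ^ (6 * r)) := by
        apply sum_le_sum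
        intro b _
        calc ∑ U ∈ powersetCard r (Hb h y b),
            ((((Ico 0 (0 + (n / P + 1))).filter
              (fun t => ∀ u ∈ U, Rg w (P * t + (b + u)))).card : ℕ) : ℝ)
            ≤ ∑ U ∈ powersetCard r (Hb h y b), (M + (z:ℝ) ^ (6 * r)) := sum_le_sum (h4 b)
          _ = (((Hb h y b).card.choose r : ℕ) : ℝ) * M +
              (((Hb h y b).card.choose r : ℕ) : ℝ) * (z:ℝ) ^ (6 * r) := by
              rw [sum_const, card_powersetCard, nsmul_eq_mul]
              ring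
          _ ≤ _ := by
              have e1 := h5 b
              have e2 := h5' b
              gcongr
    _ = _ := by rw [sum_const, card_range, nsmul_eq_mul]

/-- powers and binomial coefficients -/
theorem pow_le_choose' (x r : ℕ) : x ^ r ≤ (2 * r) ^ r + 2 ^ r * r.factorial * x.choose r := by
  rcases Nat.lt_or_ge x (2 * r) with h | h
  · exact (Nat.pow_le_pow_left h.le r).trans (Nat.le_add_right _ _)
  · have h1 : (x + 1 - r) ^ r ≤ r.factorial * x.choose r := by
      have h0 : (0 : ℚ) < r.factorial := by exact_mod_cast Nat.factorial_pos r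
      have h3 := Nat.pow_le_choose (α := ℚ) r x
      rw [div_le_iff₀ h0, mul_comm] at h3
      exact_mod_cast h3
    have h2 : x ≤ 2 * (x + 1 - r) := by omega
    calc x ^ r ≤ (2 * (x + 1 - r)) ^ r := Nat.pow_le_pow_left h2 r
      _ = 2 ^ r * (x + 1 - r) ^ r := by rw [mul_pow]
      _ ≤ 2 ^ r * (r.factorial * x.choose r) := Nat.mul_le_mul_left _ h1
      _ = 2 ^ r * r.factorial * x.choose r := by ring
      _ ≤ _ := Nat.le_add_left _ _

theorem UU_le (Z δ : ℝ) (n h : ℕ) (hh : ⌊Real.log Z⌋₊ < h) : UU Z δ n ≤ Xr (Z ^ δ) h n := by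
  classical
  unfold UU Xr
  refine card_le_card_of_injOn (fun m => m - n) ?_ ?_
  · intro m hm
    rw [mem_coe, mem_filter, mem_Icc] at hm
    rw [mem_coe, mem_filter, mem_range]
    have e : n + (m - n) = m := by omega
    change m - n < h ∧ Rg (Z ^ δ) (n + (m - n))
    refine ⟨by omega, ?_⟩
    rw [e]
    exact hm.2
  · intro m hm m' hm' hmm
    rw [mem_coe, mem_filter, mem_Icc] at hm hm'
    simp only at hmm
    omega

/-- the final numerical step -/
theorem main_term' {C n P Y W L D : ℝ} (r : ℕ) (hP : 0 < P) (hW : 0 ≤ W) (hY : 0 < Y)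
    (hL : 0 < L) (hC : 0 < C) (hPn : P ≤ n) (h : 6 * C * (W * Y) / L ≤ D) :
    P * (W ^ r * ((6 * C * Y) ^ r * (n / P + 1) / L ^ r)) ≤ 2 * n * D ^ r := by
  have e0 : (6 * C * (W * Y) / L) ^ r = W ^ r * (6 * C * Y) ^ r / L ^ r := by
    rw [← mul_pow, ← div_pow]
    congr 1
    ring
  have e1 : P * (W ^ r * ((6 * C * Y) ^ r * (n / P + 1) / L ^ r)) =
      (n + P) * (6 * C * (W * Y) / L) ^ r := by
    rw [e0]
    field_simp
  rw [e1]
  have e3 : 0 ≤ 6 * C * (W * Y) / L := by positivity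
  have hn0 : 0 < n := lt_of_lt_of_le hP hPn
  have e4 : (6 * C * (W * Y) / L) ^ r ≤ D ^ r := pow_le_pow_left₀ e3 h r
  exact mul_le_mul (by linarith) e4 (by positivity) (by linarith)

theorem pf_MO : T_MO := by
  intro r δ hδ hδ1
  rcases Nat.eq_zero_or_pos r with rfl | hr1
  · refine ⟨4, 1, by norm_num, fun Z hZ => ?_⟩
    simp only [pow_zero, sum_const, Nat.card_Icc, nsmul_eq_mul, mul_one, Nat.add_sub_cancel]
    have h1 : (NX Z : ℝ) < 3 * Z + 1 := Nat.ceil_lt_add_one (by linarith)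
    linarith
  obtain ⟨C, hC0, hC⟩ := mertens
  have hr0 : (0:ℝ) < r := by exact_mod_cast hr1
  set D : ℝ := 44928 * C * r / δ with hD
  have hD0 : 0 < D := by positivity
  -- the asymptotics
  have hNt : Tendsto (fun Z : ℝ => NX Z) atTop atTop := by
    refine tendsto_atTop_atTop.2 fun b => ⟨b, fun Z hZ => ?_⟩
    have h1 : (3 * Z : ℝ) ≤ NX Z := Nat.le_ceil _
    have h2 : (b : ℝ) ≤ NX Z := by
      have : (0:ℝ) ≤ b := Nat.cast_nonneg _
      linarith
    exact_mod_cast h2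
  have ev1 := hNt.eventually (small_bound r)
  have ev2 : ∀ᶠ Z : ℝ in atTop, ((r * r * (r * r) : ℕ) : ℝ) + 100 ≤ Real.log Z :=
    Real.tendsto_log_atTop.eventually_ge_atTop _
  have ev3 : ∀ᶠ Z : ℝ in atTop, 2 * Real.log Z ≤ Z ^ δ := by
    have h1 := (isLittleO_log_rpow_atTop hδ).bound (show (0:ℝ) < 1 / 2 by norm_num)
    filter_upwards [h1, eventually_ge_atTop 1] with Z h2 h3
    rw [Real.norm_of_nonneg (Real.log_nonneg h3), Real.norm_of_nonneg (by positivity)] at h2
    linarith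
  obtain ⟨Z₀, hZ₀⟩ := eventually_atTop.1 (ev1.and (ev2.and (ev3.and (eventually_ge_atTop 4))))
  refine ⟨4 * ((2 * r) ^ r + 2 ^ r * r.factorial * (2 * D ^ r + 1)), Z₀, by positivity,
    fun Z hZ => ?_⟩
  obtain ⟨h1, h2, h3, hZ4⟩ := hZ₀ Z hZ
  set n : ℕ := NX Z with hn
  have hn3 : (3 * Z : ℝ) ≤ n := Nat.le_ceil _
  have hn4 : (n : ℝ) ≤ 4 * Z := by
    have : (n : ℝ) < 3 * Z + 1 := Nat.ceil_lt_add_one (by linarith)
    linarith
  have hZ0 : 0 < Z := by linarith
  have hn0 : (0:ℝ) < n := by linarith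
  have hn1 : 1 ≤ n := by exact_mod_cast (by linarith : (1:ℝ) ≤ n)
  have hn1' : (1:ℝ) ≤ n := by exact_mod_cast hn1
  have hrr0 : (0:ℝ) ≤ ((r * r * (r * r) : ℕ) : ℝ) := Nat.cast_nonneg _
  have hlZ : 100 ≤ Real.log Z := by linarith
  have hlZn : Real.log Z ≤ Real.log n := Real.log_le_log hZ0 (by linarith)
  have hl4 : Real.log 4 ≤ 2 := by
    rw [show (4:ℝ) = 2 ^ 2 by norm_num, Real.log_pow]
    have := Real.log_two_lt_d9
    norm_num
    linarith
  have hlnZ : Real.log n ≤ Real.log Z + 2 := by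
    calc Real.log n ≤ Real.log (4 * Z) := Real.log_le_log hn0 hn4
      _ = Real.log 4 + Real.log Z := Real.log_mul (by norm_num) hZ0.ne'
      _ ≤ _ := by linarith
  set h : ℕ := H n with hh
  have hh1 : Real.log n + 1 ≤ h := H_ge n
  have hh2 : (h : ℝ) ≤ Real.log n + 2 := H_le n hn1
  have hh100 : 100 ≤ h := by
    have : (100:ℝ) ≤ h := by linarith
    exact_mod_cast this
  have hr4 : r * r * (r * r) < h := by
    have : ((r * r * (r * r) : ℕ) : ℝ) < h := by linarith
    exact_mod_cast this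
  obtain ⟨hyy, hy2, hrr, hyh⟩ := yfacts hh100 hr4
  obtain ⟨z1, hz11, hz16, hlz1, hz1y⟩ := z1facts (show 1 ≤ h by omega)
  have hP4 : (primorial (Nat.sqrt h + 1) : ℝ) ≤ 4 ^ (Nat.sqrt h + 1) := by
    exact_mod_cast primorial_le_four_pow (Nat.sqrt h + 1)
  have h1' : 8 * (4:ℝ) ^ (Nat.sqrt h + 1) * (2 * Real.log n) ^ r ≤ (n:ℝ) ^ (1 / 4 : ℝ) := h1
  generalize Nat.sqrt h + 1 = y at *
  -- the level
  have hzr : (1:ℝ) ≤ Z ^ (δ / (12 * r)) := Real.one_le_rpow (by linarith) (by positivity)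
  set z : ℕ := ⌊Z ^ (δ / (12 * r))⌋₊ with hz
  have hz1 : 1 ≤ z := Nat.le_floor (by exact_mod_cast hzr)
  have hzle : (z : ℝ) ≤ Z ^ (δ / (12 * r)) := Nat.floor_le (by positivity)
  have hzlt : Z ^ (δ / (12 * r)) < z + 1 := Nat.lt_floor_add_one _
  have hlz : δ * Real.log Z / (12 * r) ≤ Real.log (z + 1) := by
    have e : Real.log (Z ^ (δ / (12 * r))) = δ * Real.log Z / (12 * r) := by
      rw [Real.log_rpow hZ0]
      ring
    rw [← e]
    exact Real.log_le_log (by positivity) hzlt.le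
  have hzw : (z : ℝ) ^ r ≤ Z ^ δ := by
    refine (pow_le_pow_left₀ (by positivity) hzle r).trans ?_
    rw [← Real.rpow_natCast, ← Real.rpow_mul hZ0.le]
    apply Real.rpow_le_rpow_of_exponent_le (by linarith)
    have e : δ / (12 * r) * r = δ / 12 := by field_simp
    rw [e]
    linarith
  have hz6 : (z : ℝ) ^ (6 * r) ≤ (n : ℝ) ^ (1 / 2 : ℝ) := by
    refine (pow_le_pow_left₀ (by positivity) hzle (6 * r)).trans ?_
    rw [← Real.rpow_natCast, ← Real.rpow_mul hZ0.le]
    have e : δ / (12 * r) * ((6 * r : ℕ) : ℝ) = δ / 2 := by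
      push_cast
      field_simp
      norm_num
    rw [e]
    calc Z ^ (δ / 2) ≤ Z ^ (1 / 2 : ℝ) :=
          Real.rpow_le_rpow_of_exponent_le (by linarith) (by linarith)
      _ ≤ (n : ℝ) ^ (1 / 2 : ℝ) := Real.rpow_le_rpow hZ0.le (by linarith) (by norm_num)
  have hyw : (y : ℝ) ≤ Z ^ δ := by
    have : (y : ℝ) ≤ h := by exact_mod_cast hyh
    linarith
  have hB := T_bound' hC0 (Z ^ δ) n h y z z1 r hyy hy2 hrr hr1 hz1 hz11 hz1y hzw hyw (hC y hy2)
  have hlog0 : 0 < Real.log Z := by linarith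
  have hlz0 : 0 < Real.log (z + 1) := lt_of_lt_of_le (by positivity) hlz
  have hly : 0 < Real.log y := Real.log_pos (by exact_mod_cast hy2)
  have hlh : Real.log y ≤ Real.log h :=
    Real.log_le_log (by exact_mod_cast (by omega : 0 < y)) (by exact_mod_cast hyh)
  have hlh0 : 0 < Real.log h := lt_of_lt_of_le hly hlh
  have hlz10 : 0 < Real.log (z1 + 1) := lt_of_lt_of_le (by positivity) hlz1
  have hh0 : (0:ℝ) < h := by linarith
  set W : ℝ := 2 * h / Real.log (z1 + 1) + (z1 : ℝ) ^ 6 with hW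
  have hW0 : 0 ≤ W := by positivity
  have hWy : W * Real.log y ≤ 26 * h := by
    have e1 : W ≤ 24 * h / Real.log h + Real.sqrt h := by
      rw [hW]
      apply add_le_add _ hz16
      rw [div_le_div_iff₀ hlz10 hlh0]
      nlinarith [hlz1]
    have e2 : Real.sqrt h * Real.log h ≤ 2 * h := by
      have e3 := log_le_two_sqrt hh0
      have e4 : Real.sqrt h * Real.sqrt h = h := Real.mul_self_sqrt hh0.le
      nlinarith [Real.sqrt_nonneg (h:ℝ)]
    calc W * Real.log y ≤ (24 * h / Real.log h + Real.sqrt h) * Real.log h := by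
          gcongr
      _ = 24 * h + Real.sqrt h * Real.log h := by
        field_simp
      _ ≤ 26 * h := by linarith
  have hhZ : (h : ℝ) ≤ 2 * Real.log Z := by linarith
  have hlev : 6 * C * (W * Real.log y) / Real.log (z + 1) ≤ D := by
    rw [div_le_iff₀ hlz0]
    have f1 : D * (δ * Real.log Z / (12 * r)) ≤ D * Real.log (z + 1) :=
      mul_le_mul_of_nonneg_left hlz hD0.le
    have f2 : D * (δ * Real.log Z / (12 * r)) = 3744 * C * Real.log Z := by
      rw [hD]
      field_simp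
      norm_num
    have f3 : 6 * C * (W * Real.log y) ≤ 6 * C * (26 * h) := by gcongr
    have f4 : 6 * C * (26 * h) ≤ 6 * C * (26 * (2 * Real.log Z)) := by gcongr
    have f5 : 0 < C * Real.log Z := by positivity
    linarith
  have hP0 : (0:ℝ) < primorial y := by exact_mod_cast primorial_pos y
  have hlg1 : (1:ℝ) ≤ (2 * Real.log n) ^ r := one_le_pow₀ (by linarith)
  have hP8 : 8 * ((primorial y : ℝ) * (2 * Real.log n) ^ r) ≤ (n:ℝ) ^ (1 / 4 : ℝ) := by
    refine le_trans ?_ h1'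
    calc 8 * ((primorial y : ℝ) * (2 * Real.log n) ^ r)
        ≤ 8 * ((4:ℝ) ^ y * (2 * Real.log n) ^ r) := by gcongr
      _ = _ := by ring
  have hq4 : (n:ℝ) ^ (1 / 4 : ℝ) ≤ n := by
    calc (n:ℝ) ^ (1 / 4 : ℝ) ≤ (n:ℝ) ^ (1 : ℝ) :=
          Real.rpow_le_rpow_of_exponent_le hn1' (by norm_num)
      _ = n := Real.rpow_one _
  have hPn : (primorial y : ℝ) ≤ n := by
    have : (primorial y : ℝ) * 1 ≤ (primorial y : ℝ) * (2 * Real.log n) ^ r := by gcongr
    have h9 : 0 ≤ (primorial y : ℝ) * (2 * Real.log n) ^ r := by positivity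
    linarith
  have hm := main_term' (n := (n:ℝ)) (P := (primorial y : ℝ)) r hP0 hW0 hly hlz0 hC0 hPn hlev
  have herr : (primorial y : ℝ) * ((h : ℝ) ^ r * (z : ℝ) ^ (6 * r)) ≤ n := by
    have hh3 : (h : ℝ) ≤ 2 * Real.log n := by linarith
    calc (primorial y : ℝ) * ((h : ℝ) ^ r * (z : ℝ) ^ (6 * r))
        ≤ (primorial y : ℝ) * ((2 * Real.log n) ^ r * (n : ℝ) ^ (1 / 2 : ℝ)) := by gcongr
      _ = ((primorial y : ℝ) * (2 * Real.log n) ^ r) * (n : ℝ) ^ (1 / 2 : ℝ) := by ring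
      _ ≤ (n:ℝ) ^ (1 / 4 : ℝ) * (n : ℝ) ^ (1 / 2 : ℝ) := by
        gcongr
        have : 0 ≤ (primorial y : ℝ) * (2 * Real.log n) ^ r := by positivity
        linarith
      _ = (n:ℝ) ^ (3 / 4 : ℝ) := by
        rw [← Real.rpow_add hn0]
        norm_num
      _ ≤ (n:ℝ) ^ (1 : ℝ) := Real.rpow_le_rpow_of_exponent_le hn1' (by norm_num)
      _ = n := Real.rpow_one _
  have hfin : ((∑ k ∈ Icc 1 n, (Xr (Z ^ δ) h k).choose r : ℕ) : ℝ) ≤ (2 * D ^ r + 1) * n := by
    refine hB.trans ?_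
    rw [mul_add]
    linarith
  have hwin : ⌊Real.log Z⌋₊ < h := by
    have e1 : (⌊Real.log Z⌋₊ : ℝ) ≤ Real.log Z := Nat.floor_le (by linarith)
    have : (⌊Real.log Z⌋₊ : ℝ) < h := by linarith
    exact_mod_cast this
  have hterm : ∀ k ∈ Icc 1 n, (UU Z δ k : ℝ) ^ r ≤
      (2 * r) ^ r + 2 ^ r * r.factorial * ((Xr (Z ^ δ) h k).choose r : ℝ) := by
    intro k _
    have e1 := UU_le Z δ k h hwin
    have e2 := (Nat.pow_le_pow_left e1 r).trans (pow_le_choose' (Xr (Z ^ δ) h k) r)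
    exact_mod_cast e2
  calc ∑ k ∈ Icc 1 n, (UU Z δ k : ℝ) ^ r
      ≤ ∑ k ∈ Icc 1 n, ((2 * (r : ℝ)) ^ r + 2 ^ r * r.factorial *
        ((Xr (Z ^ δ) h k).choose r : ℝ)) := sum_le_sum hterm
    _ = n * (2 * (r : ℝ)) ^ r + 2 ^ r * r.factorial *
        ((∑ k ∈ Icc 1 n, (Xr (Z ^ δ) h k).choose r : ℕ) : ℝ) := by
      rw [sum_add_distrib, sum_const, Nat.card_Icc, Nat.add_sub_cancel, nsmul_eq_mul, ← mul_sum]
      push_cast
      rfl
    _ ≤ n * (2 * (r : ℝ)) ^ r + 2 ^ r * r.factorial * ((2 * D ^ r + 1) * n) := by gcongr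
    _ = n * ((2 * r) ^ r + 2 ^ r * r.factorial * (2 * D ^ r + 1)) := by ring
    _ ≤ (4 * Z) * ((2 * r) ^ r + 2 ^ r * r.factorial * (2 * D ^ r + 1)) := by gcongr
    _ = _ := by ring

end Pool.Agent.H7.MTP
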